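import Pool.Agent.H840.MX.Stm

/-!
# `S_GEX`: existence of the quartic `g` (eleven points on a cubic, helper840)
-/

set_option autoImplicit false

namespace Pool.Agent.H658.MX

open MvPolynomial Pool.Agent.T2H40.MI Pool.Agent.H840.MX

/-- A vector which is not orthogonal to finitely many nonzero vectors. -/
theorem gex_vec {n : ℕ} (Q : Fin n → Fin 3 → ℂ) (hQ : ∀ i, Q i ≠ 0) :
    ∃ r : Fin 3 → ℂ, ∀ i, r ⬝ᵥ Q i ≠ 0 := by
  have h1 : (∏ i, lin (Q i) : S) ≠ 0 := Finset.prod_ne_zero_iff.2 fun i _ => lin_ne_zero (hQ i)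
  have h2 : ∃ r : Fin 3 → ℂ, eval r (∏ i, lin (Q i) : S) ≠ 0 := by
    by_contra hcon
    push Not at hcon
    exact h1 (MvPolynomial.funext fun r => by rw [hcon r, map_zero])
  obtain ⟨r, hr⟩ := h2
  refine ⟨r, fun i h => hr ?_⟩
  rw [map_prod]
  refine Finset.prod_eq_zero (Finset.mem_univ i) ?_
  rw [eval_lin, dotProduct_comm]
  exact h

/-- Two independent vectors in a plane. -/
theorem gex_plane (r : Fin 3 → ℂ) (hr : r ≠ 0) : ∃ a b : Fin 3 → ℂ, r ⬝ᵥ a = 0 ∧ r ⬝ᵥ b = 0 ∧
    b ≠ 0 ∧ ∀ t : ℂ, a + t • b ≠ 0 := by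
  have hex : r 0 ≠ 0 ∨ r 1 ≠ 0 ∨ r 2 ≠ 0 := by
    by_contra hcon
    push Not at hcon
    obtain ⟨h0, h1, h2⟩ := hcon
    apply hr
    funext i
    fin_cases i
    · exact h0
    · exact h1
    · exact h2
  rcases hex with h | h | h
  · refine ⟨![-(r 1), r 0, 0], ![-(r 2), 0, r 0], ?_, ?_, ?_, ?_⟩
    · simp only [dotProduct, Fin.sum_univ_three, Matrix.cons_val]
      ring
    · simp only [dotProduct, Fin.sum_univ_three, Matrix.cons_val]
      ring
    · intro h0
      have := congrFun h0 2
      simp only [Matrix.cons_val, Pi.zero_apply] at this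
      exact h this
    · intro t h0
      have := congrFun h0 1
      simp only [Pi.add_apply, Pi.smul_apply, Matrix.cons_val, Pi.zero_apply, smul_zero,
        add_zero] at this
      exact h this
  · refine ⟨![r 1, -(r 0), 0], ![0, -(r 2), r 1], ?_, ?_, ?_, ?_⟩
    · simp only [dotProduct, Fin.sum_univ_three, Matrix.cons_val]
      ring
    · simp only [dotProduct, Fin.sum_univ_three, Matrix.cons_val]
      ring
    · intro h0
      have := congrFun h0 2
      simp only [Matrix.cons_val, Pi.zero_apply] at this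
      exact h this
    · intro t h0
      have := congrFun h0 0
      simp only [Pi.add_apply, Pi.smul_apply, Matrix.cons_val, Pi.zero_apply, smul_zero,
        add_zero] at this
      exact h this
  · refine ⟨![r 2, 0, -(r 0)], ![0, r 2, -(r 1)], ?_, ?_, ?_, ?_⟩
    · simp only [dotProduct, Fin.sum_univ_three, Matrix.cons_val]
      ring
    · simp only [dotProduct, Fin.sum_univ_three, Matrix.cons_val]
      ring
    · intro h0
      have := congrFun h0 1
      simp only [Matrix.cons_val, Pi.zero_apply] at this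
      exact h this
    · intro t h0
      have := congrFun h0 0
      simp only [Pi.add_apply, Pi.smul_apply, Matrix.cons_val, Pi.zero_apply, smul_zero,
        add_zero] at this
      exact h this

/-- A cubic form has a zero on a plane. -/
theorem gex_zero {F : S} (hF : F.IsHomogeneous 3) (a b : Fin 3 → ℂ) (hb : b ≠ 0)
    (hab : ∀ t : ℂ, a + t • b ≠ 0) :
    ∃ q : Fin 3 → ℂ, q ≠ 0 ∧ eval q F = 0 ∧ ∀ r : Fin 3 → ℂ, r ⬝ᵥ a = 0 → r ⬝ᵥ b = 0 →
      r ⬝ᵥ q = 0 := by
  obtain ⟨f, hf⟩ : ∃ f : Polynomial ℂ, f = aeval (fun i => Polynomial.C (a i) +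
      Polynomial.X * Polynomial.C (b i)) F := ⟨_, rfl⟩
  have hfe : ∀ t : ℂ, f.eval t = eval (a + t • b) F := by
    intro t
    have h1 : Polynomial.aeval t f = aeval (fun i => Polynomial.aeval t (Polynomial.C (a i) +
        Polynomial.X * Polynomial.C (b i))) F := by
      rw [hf]
      exact comp_aeval_apply _ (Polynomial.aeval t : Polynomial ℂ →ₐ[ℂ] ℂ) F
    have h2 : (fun i => Polynomial.aeval t (Polynomial.C (a i) +
        Polynomial.X * Polynomial.C (b i))) = a + t • b := by
      funext i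
      simp
      exact mul_comm _ _
    rw [h2] at h1
    rw [← Polynomial.coe_aeval_eq_eval, h1]
    rfl
  obtain ⟨g, hg⟩ : ∃ g : Polynomial ℂ, g = aeval (fun i => Polynomial.X * Polynomial.C (a i) +
      Polynomial.C (b i)) F := ⟨_, rfl⟩
  have hge : ∀ t : ℂ, g.eval t = eval (t • a + b) F := by
    intro t
    have h1 : Polynomial.aeval t g = aeval (fun i => Polynomial.aeval t (Polynomial.X *
        Polynomial.C (a i) + Polynomial.C (b i))) F := by
      rw [hg]
      exact comp_aeval_apply _ (Polynomial.aeval t : Polynomial ℂ →ₐ[ℂ] ℂ) F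
    have h2 : (fun i => Polynomial.aeval t (Polynomial.X *
        Polynomial.C (a i) + Polynomial.C (b i))) = t • a + b := by
      funext i
      simp
      exact mul_comm _ _
    rw [h2] at h1
    rw [← Polynomial.coe_aeval_eq_eval, h1]
    rfl
  by_cases hroot : ∃ t, f.eval t = 0
  · obtain ⟨t, ht⟩ := hroot
    refine ⟨a + t • b, hab t, by rw [← hfe]; exact ht, fun r ha hb => ?_⟩
    rw [dotProduct_add, dotProduct_smul, ha, hb, smul_zero, add_zero]
  · push Not at hroot
    have hdeg : f.degree = 0 := by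
      by_contra hd
      obtain ⟨t, ht⟩ := IsAlgClosed.exists_root f hd
      exact hroot t ht
    obtain ⟨c, hc⟩ : ∃ c, f = Polynomial.C c := ⟨_, Polynomial.eq_C_of_degree_eq_zero hdeg⟩
    have hfc : ∀ t : ℂ, eval (a + t • b) F = c := by
      intro t
      rw [← hfe, hc, Polynomial.eval_C]
    have hgX : g = Polynomial.C c * Polynomial.X ^ 3 := by
      refine Polynomial.eq_of_infinite_eval_eq _ _ ?_
      refine Set.Infinite.mono (s := {0}ᶜ) ?_ (Set.finite_singleton (0 : ℂ)).infinite_compl
      intro t ht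
      have ht0 : t ≠ 0 := ht
      show g.eval t = _
      rw [hge]
      have h1 : t • a + b = t • (a + t⁻¹ • b) := by
        rw [smul_add, smul_smul, mul_inv_cancel₀ ht0, one_smul]
      rw [h1, eval_smul_hom hF, hfc]
      simp only [Polynomial.eval_mul, Polynomial.eval_C, Polynomial.eval_pow, Polynomial.eval_X]
      ring
    refine ⟨b, hb, ?_, fun r _ hb => hb⟩
    have h0 := hge 0
    rw [zero_smul, zero_add, hgX] at h0
    rw [← h0]
    simp

theorem gex : S_GEX := by
  intro F P p hG hirr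
  -- `F (p) = 0`
  have hFp : eval p F = 0 := by
    have h1 := (hG.env p hG.ne').2 (Or.inl ⟨1, (one_smul _ _).symm⟩)
    obtain ⟨i, hi⟩ := Function.ne_iff.1 hG.ne'
    have h2 := h1 (F * X i) (hG.cubic.hom.mul (isHomogeneous_X ℂ i))
      (mem_idealOf_hom (hG.cubic.hom.mul (isHomogeneous_X ℂ i)) (by
        rintro _ ⟨j, rfl⟩
        rw [map_mul, hG.on j, zero_mul]))
    rw [map_mul, eval_X] at h2
    exact (mul_eq_zero.1 h2).resolve_right hi
  -- the twelve points
  obtain ⟨Q, hQ⟩ : ∃ Q : Fin 12 → Fin 3 → ℂ, Q = Fin.snoc (α := fun _ => Fin 3 → ℂ) P p :=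
    ⟨_, rfl⟩
  have hQl : Q (Fin.last 11) = p := by rw [hQ, Fin.snoc_last]
  have hQc : ∀ i : Fin 11, Q i.castSucc = P i := by
    intro i
    rw [hQ]
    exact Fin.snoc_castSucc (α := fun _ => Fin 3 → ℂ) p P i
  have hQne : ∀ i, Q i ≠ 0 := by
    intro i
    induction i using Fin.lastCases with
    | last => rw [hQl]; exact hG.ne'
    | cast i => rw [hQc]; exact hG.ne i
  obtain ⟨r, hr⟩ := gex_vec Q hQne
  have hr0 : r ≠ 0 := by
    rintro rfl
    exact hr 0 (zero_dotProduct _)
  obtain ⟨a, b, ha, hb, hb0, hab⟩ := gex_plane r hr0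
  obtain ⟨q, hq0, hqF, hqr⟩ := gex_zero hG.cubic.hom a b hb0 hab
  have hq := hqr r ha hb
  have hnot : ∀ (i : Fin 12) (t : ℂ), q ≠ t • Q i := by
    intro i t h
    have h1 : t * (r ⬝ᵥ Q i) = 0 := by
      rw [← smul_eq_mul, ← dotProduct_smul, ← h, hq]
    have h2 : t = 0 := (mul_eq_zero.1 h1).resolve_right (hr i)
    exact hq0 (by rw [h, h2, zero_smul])
  have henv : ¬ ∀ h : MvPolynomial (Fin 3) ℂ, h.IsHomogeneous 4 → h ∈ idealOf (Set.range P) →
      eval q h = 0 := by
    intro hcon
    rcases (hG.env q hq0).1 hcon with ⟨t, ht⟩ | ⟨i, t, ht⟩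
    · exact hnot (Fin.last 11) t (by rw [hQl]; exact ht)
    · exact hnot i.castSucc t (by rw [hQc]; exact ht)
  push Not at henv
  obtain ⟨g, hg4, hgI, hgq⟩ := henv
  have hgp : eval p g = 0 := (hG.env p hG.ne').2 (Or.inl ⟨1, (one_smul _ _).symm⟩) g hg4 hgI
  have hgP : ∀ i, eval (P i) g = 0 := by
    intro i
    have := mem_idealOf.1 hgI (P i) ⟨i, rfl⟩ 1
    rwa [one_smul] at this
  rw [← hQ]
  refine ⟨g, hG.cubic.hom, hg4, hirr, ?_, hQne, ?_, ?_, ?_⟩
  · rintro ⟨u, rfl⟩
    exact hgq (by rw [map_mul, hqF, zero_mul])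
  · intro i j hij t
    induction i using Fin.lastCases with
    | last =>
      induction j using Fin.lastCases with
      | last => exact absurd rfl hij
      | cast j => rw [hQl, hQc]; exact hG.diff' j t
    | cast i =>
      induction j using Fin.lastCases with
      | last =>
        rw [hQl, hQc]
        intro h
        have ht : t ≠ 0 := by
          rintro rfl
          exact hG.ne i (by rw [h, zero_smul])
        exact hG.diff' i t⁻¹ (by rw [h, smul_smul, inv_mul_cancel₀ ht, one_smul])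
      | cast j =>
        rw [hQc, hQc]
        exact hG.diff i j (fun h => hij (by rw [h])) t
  · intro i
    induction i using Fin.lastCases with
    | last => rw [hQl]; exact hFp
    | cast i => rw [hQc]; exact hG.on i
  · intro i
    induction i using Fin.lastCases with
    | last => rw [hQl]; exact hgp
    | cast i => rw [hQc]; exact hgP i

end Pool.Agent.H658.MX
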